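import Pool.Agent.H62.CNP.GalAs

/-!
# Row GAL, part 3: the field `K(Y)` with the extension of an automorphism of `K`
-/

set_option autoImplicit false

namespace Pool.CND

open Polynomial

theorem gal_cast {p : ℕ} [Fact p.Prime] {K L : Type} [Field K] [CharP K p] [Field L] [Algebra K L]
    [CharP L p] (c : ZMod p) :
    ZMod.castHom (dvd_refl p) L c = algebraMap K L (ZMod.castHom (dvd_refl p) K c) := by
  have : (ZMod.castHom (dvd_refl p) L) =
      (algebraMap K L).comp (ZMod.castHom (dvd_refl p) K) := Subsingleton.elim _ _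
  rw [this]
  rfl

theorem gal_field (p : ℕ) [Fact p.Prime] (K : Type) [Field K] [CharP K p] (n : ℕ)
    (θ : K ≃+* K) (f c : Fin n → K) (S : Matrix (Fin n) (Fin n) (ZMod p)) (hS : S ^ p = 1)
    (hθ : ∀ i, θ (f i) = (∑ j, ZMod.castHom (dvd_refl p) K (S i j) * f j) + (c i ^ p - c i))
    (hne : ∀ ℓ : Fin n → ZMod p, ℓ ≠ 0 → ∀ u : K,
      u ^ p - u ≠ ∑ i, ZMod.castHom (dvd_refl p) K (ℓ i) * f i) :
    ∃ (L : Type) (_ : Field L) (_ : Algebra K L) (y : Fin n → L),
      FiniteDimensional K L ∧ Algebra.IsSeparable K L ∧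
      (∀ i, y i ^ p - y i = algebraMap K L (f i)) ∧
      (∀ M : Subfield L, (∀ u : K, algebraMap K L u ∈ M) → (∀ i, y i ∈ M) → ∀ z : L, z ∈ M) ∧
      (∀ v : Fin n → ZMod p, ∃ σ : L ≃ₐ[K] L, ∀ i,
        σ (y i) = y i + algebraMap K L (ZMod.castHom (dvd_refl p) K (v i))) ∧
      (∀ z : L, (∀ σ : L ≃ₐ[K] L, σ z = z) → ∃ u : K, algebraMap K L u = z) ∧
      ∃ T : L →+* L, (∀ u : K, T (algebraMap K L u) = algebraMap K L (θ u)) ∧
        ∀ i, T (y i) = (∑ j, algebraMap K L (ZMod.castHom (dvd_refl p) K (S i j)) * y j) +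
          algebraMap K L (c i) := by
  have hp : p.Prime := Fact.out
  have hex : ∀ i, ∃ y : AlgebraicClosure K, y ^ p - y = algebraMap K (AlgebraicClosure K) (f i) :=
    fun i => gal_exists _
  choose Y hY using hex
  obtain ⟨h1, h2, h3, h4⟩ := gal_as p K (AlgebraicClosure K) n f Y hY hne
  set L := IntermediateField.adjoin K (Set.range Y) with hL
  have hYm : ∀ i, Y i ∈ L := fun i => IntermediateField.subset_adjoin K _ ⟨i, rfl⟩
  have hcharL : CharP L p := charP_of_injective_algebraMap (algebraMap K L).injective p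
  let Θ : AlgebraicClosure K ≃+* AlgebraicClosure K :=
    IsAlgClosure.equivOfEquiv (AlgebraicClosure K) (AlgebraicClosure K) θ
  have hΘ : ∀ u : K, Θ (algebraMap K _ u) = algebraMap K _ (θ u) := fun u =>
    IsAlgClosure.equivOfEquiv_algebraMap _ _ θ u
  have hΘY : ∀ i, ∃ w : ZMod p, Θ (Y i) =
      ((∑ j, algebraMap K _ (ZMod.castHom (dvd_refl p) K (S i j)) * Y j) + algebraMap K _ (c i)) +
        ZMod.castHom (dvd_refl p) (AlgebraicClosure K) w := by
    intro i
    apply gal_root
    rw [← map_pow, ← map_sub, hY i, hΘ, hθ i, add_pow_char, sum_pow_char, map_add, map_sum,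
      map_sub, map_pow]
    have : ∀ j, (algebraMap K (AlgebraicClosure K) (ZMod.castHom (dvd_refl p) K (S i j)) * Y j) ^ p
        = algebraMap K (AlgebraicClosure K) (ZMod.castHom (dvd_refl p) K (S i j) * f j) +
          algebraMap K (AlgebraicClosure K) (ZMod.castHom (dvd_refl p) K (S i j)) * Y j := by
      intro j
      rw [mul_pow, ← map_pow, gal_pf_pow, map_mul, ← hY j]
      ring
    rw [Finset.sum_congr rfl fun j _ => this j, Finset.sum_add_distrib]
    ring
  choose w hw using hΘY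
  have hΘL : ∀ z ∈ L, Θ z ∈ L := by
    intro z hz
    rw [hL] at hz
    induction hz using IntermediateField.adjoin_induction with
    | mem z hz =>
      obtain ⟨i, rfl⟩ := hz
      rw [hw i, gal_cast (K := K)]
      refine add_mem (add_mem (sum_mem fun j _ => mul_mem (L.algebraMap_mem _) (hYm j))
        (L.algebraMap_mem _)) (L.algebraMap_mem _)
    | algebraMap u =>
      rw [hΘ]
      exact L.algebraMap_mem _
    | add x y _ _ hx hy =>
      rw [map_add]
      exact add_mem hx hy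
    | inv x _ hx =>
      rw [map_inv₀]
      exact inv_mem hx
    | mul x y _ _ hx hy =>
      rw [map_mul]
      exact mul_mem hx hy
  let T0 : L →+* L :=
    { toFun := fun z => ⟨Θ z, hΘL z z.2⟩
      map_one' := Subtype.ext (by simp)
      map_mul' := fun a b => Subtype.ext (by simp)
      map_zero' := Subtype.ext (by simp)
      map_add' := fun a b => Subtype.ext (by simp) }
  have hT0 : ∀ z : L, ((T0 z : L) : AlgebraicClosure K) = Θ z := fun z => rfl
  -- kill the constants
  obtain ⟨σ, hσ⟩ := h3 (-((S ^ (p - 1)).mulVec w))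
  have hSv : S.mulVec (-((S ^ (p - 1)).mulVec w)) = -w := by
    rw [Matrix.mulVec_neg, Matrix.mulVec_mulVec, ← pow_succ', Nat.sub_add_cancel hp.one_lt.le, hS,
      Matrix.one_mulVec]
  refine ⟨L, inferInstance, inferInstance, fun i => ⟨Y i, hYm i⟩, h1, h2,
    fun i => Subtype.ext (hY i), ?_, ?_, h4, σ.toAlgHom.toRingHom.comp T0, ?_, ?_⟩
  · intro M hM1 hM2 z
    obtain ⟨z, hz⟩ := z
    have key : ∀ z ∈ IntermediateField.adjoin K (Set.range Y), ∃ hz : z ∈ L, (⟨z, hz⟩ : L) ∈ M := by
      intro z hz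
      induction hz using IntermediateField.adjoin_induction with
      | mem z hz =>
        obtain ⟨i, rfl⟩ := hz
        exact ⟨hYm i, hM2 i⟩
      | algebraMap u => exact ⟨L.algebraMap_mem u, hM1 u⟩
      | add x y _ _ hx hy =>
        obtain ⟨hx1, hx2⟩ := hx
        obtain ⟨hy1, hy2⟩ := hy
        exact ⟨add_mem hx1 hy1, add_mem hx2 hy2⟩
      | inv x _ hx =>
        obtain ⟨hx1, hx2⟩ := hx
        exact ⟨inv_mem hx1, inv_mem hx2⟩
      | mul x y _ _ hx hy =>
        obtain ⟨hx1, hx2⟩ := hx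
        obtain ⟨hy1, hy2⟩ := hy
        exact ⟨mul_mem hx1 hy1, mul_mem hx2 hy2⟩
    obtain ⟨_, h⟩ := key z hz
    exact h
  · intro v
    obtain ⟨σ', hσ'⟩ := h3 v
    refine ⟨σ', fun i => Subtype.ext ?_⟩
    rw [hσ' i, gal_cast (K := K)]
    rfl
  · intro u
    have h5 : T0 (algebraMap K L u) = algebraMap K L (θ u) := Subtype.ext (hΘ u)
    show σ (T0 (algebraMap K L u)) = _
    rw [h5]
    exact σ.commutes _
  · intro i
    have h5 : T0 ⟨Y i, hYm i⟩ = ((∑ j, algebraMap K L (ZMod.castHom (dvd_refl p) K (S i j)) *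
        (⟨Y j, hYm j⟩ : L)) + algebraMap K L (c i)) +
          algebraMap K L (ZMod.castHom (dvd_refl p) K (w i)) := by
      apply Subtype.ext
      rw [hT0]
      show Θ (Y i) = _
      rw [hw i, gal_cast (K := K)]
      simp
    show σ (T0 ⟨Y i, hYm i⟩) = _
    rw [h5, map_add, map_add, map_sum, AlgEquiv.commutes, AlgEquiv.commutes]
    have h6 : ∀ j, σ ⟨Y j, hYm j⟩ = ⟨Y j, hYm j⟩ + algebraMap K L (ZMod.castHom (dvd_refl p) K
        ((-((S ^ (p - 1)).mulVec w)) j)) := by
      intro j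
      apply Subtype.ext
      rw [hσ j, gal_cast (K := K)]
      rfl
    have h7 : ∀ j, σ (algebraMap K L (ZMod.castHom (dvd_refl p) K (S i j)) * (⟨Y j, hYm j⟩ : L)) =
        algebraMap K L (ZMod.castHom (dvd_refl p) K (S i j)) * (⟨Y j, hYm j⟩ : L) +
        algebraMap K L (ZMod.castHom (dvd_refl p) K
          (S i j * (-((S ^ (p - 1)).mulVec w)) j)) := by
      intro j
      rw [map_mul, AlgEquiv.commutes, h6 j, map_mul (ZMod.castHom (dvd_refl p) K), map_mul]
      ring
    have h8 : ∑ j, S i j * (-((S ^ (p - 1)).mulVec w)) j = -w i := congrFun hSv i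
    rw [Finset.sum_congr rfl fun j _ => h7 j, Finset.sum_add_distrib, ← map_sum, ← map_sum, h8,
      map_neg, map_neg]
    ring

end Pool.CND
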