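import Mathlib

/-!
# Row GAL, part 1: extending a homomorphism from a normal subgroup of index `p`
-/

set_option autoImplicit false

namespace Pool.CND

theorem gal_grp {G M : Type} [Group G] [Finite G] [Group M] (p : ℕ) (A : Subgroup G) (τ : G)
    (hp : p.Prime) (hcard : Nat.card G = p * Nat.card A) (hτ : τ ∉ A)
    (hconj : ∀ a ∈ A, τ * a * τ⁻¹ ∈ A) (s : A →* M) (t : M)
    (hts : ∀ a a' : A, (a' : G) = τ * a * τ⁻¹ → t * s a = s a' * t)
    (e : A) (he : (e : G) = τ ^ p) (hte : t ^ p = s e) :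
    ∃ ρ : G →* M, (∀ a : A, ρ a = s a) ∧ ρ τ = t ∧
      ∀ g : G, g ∉ A → ∃ (a : A) (l : ℕ), ¬ p ∣ l ∧ g = a * τ ^ l := by
  have hmem : ∀ l : ℕ, τ ^ l ∈ A → p ∣ l := by
    intro l hl
    by_contra hd
    apply hτ
    have hc : IsCoprime (l : ℤ) (p : ℤ) :=
      Nat.isCoprime_iff_coprime.mpr (Nat.Coprime.symm ((Nat.Prime.coprime_iff_not_dvd hp).mpr hd))
    obtain ⟨u, v, huv⟩ := hc
    have h1 : τ = (τ ^ l) ^ u * (τ ^ p) ^ v := by
      rw [← zpow_natCast, ← zpow_natCast, ← zpow_mul, ← zpow_mul, ← zpow_add]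
      have : (l : ℤ) * u + (p : ℤ) * v = 1 := by linear_combination huv
      rw [this, zpow_one]
    rw [h1]
    exact mul_mem (A.zpow_mem hl u) (A.zpow_mem (he ▸ e.2) v)
  have hcov : ∀ g : G, ∃ (a : A) (l : ℕ), g = a * τ ^ l := by
    let f : A × Fin p → G := fun x => (x.1 : G) * τ ^ (x.2 : ℕ)
    have hwlog : ∀ (a b : A) (l m : ℕ), l ≤ m → l < p → m < p →
        (a : G) * τ ^ l = b * τ ^ m → a = b ∧ l = m := by
      intro a b l m hlm hl hm hab
      obtain ⟨d, rfl⟩ := Nat.exists_eq_add_of_le hlm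
      have h1 : (b : G)⁻¹ * a = τ ^ d := by
        rw [add_comm, pow_add, ← mul_assoc] at hab
        have h2 := mul_right_cancel hab
        rw [h2]
        group
      have h2 : p ∣ d := hmem d (h1 ▸ mul_mem (inv_mem b.2) a.2)
      have h3 : d = 0 := Nat.eq_zero_of_dvd_of_lt h2 (by omega)
      subst h3
      rw [add_zero] at hab ⊢
      exact ⟨Subtype.ext (mul_right_cancel hab), rfl⟩
    have hinj : Function.Injective f := by
      rintro ⟨a, l⟩ ⟨b, m⟩ h
      rcases le_total (l : ℕ) (m : ℕ) with h1 | h1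
      · obtain ⟨h2, h3⟩ := hwlog a b l m h1 l.2 m.2 h
        exact Prod.ext h2 (Fin.ext h3)
      · obtain ⟨h2, h3⟩ := hwlog b a m l h1 m.2 l.2 h.symm
        exact Prod.ext h2.symm (Fin.ext h3.symm)
    have hsurj : Function.Surjective f := by
      have hb := hinj.bijective_of_nat_card_le (by
        rw [Nat.card_prod, Nat.card_eq_fintype_card (α := Fin p), Fintype.card_fin, hcard, mul_comm])
      exact hb.2
    intro g
    obtain ⟨⟨a, l⟩, h⟩ := hsurj g
    exact ⟨a, l, h.symm⟩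
  have hcj : ∀ (l : ℕ) (b : A), ∃ b' : A, (b' : G) = τ ^ l * b * (τ ^ l)⁻¹ ∧
      t ^ l * s b = s b' * t ^ l := by
    intro l
    induction l with
    | zero => exact fun b => ⟨b, by simp, by simp⟩
    | succ l ih =>
      intro b
      obtain ⟨b1, h1, h2⟩ := ih b
      refine ⟨⟨τ * b1 * τ⁻¹, hconj _ b1.2⟩, ?_, ?_⟩
      · show τ * b1 * τ⁻¹ = _
        rw [h1, pow_succ']
        group
      · rw [pow_succ', mul_assoc, h2, ← mul_assoc, hts b1 ⟨τ * b1 * τ⁻¹, hconj _ b1.2⟩ rfl,
          mul_assoc]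
  have hwd0 : ∀ (a b : A) (l m : ℕ), l ≤ m → (a : G) * τ ^ l = b * τ ^ m →
      s a * t ^ l = s b * t ^ m := by
    intro a b l m hlm hab
    obtain ⟨d, rfl⟩ := Nat.exists_eq_add_of_le hlm
    have h0 : (a : G) = b * τ ^ d := by
      rw [add_comm, pow_add, ← mul_assoc] at hab
      exact mul_right_cancel hab
    have h1 : (b : G)⁻¹ * a = τ ^ d := by
      rw [h0]
      group
    obtain ⟨c, rfl⟩ := hmem d (h1 ▸ mul_mem (inv_mem b.2) a.2)
    have h2 : a = b * e ^ c := by
      apply Subtype.ext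
      rw [h0, pow_mul, ← he]
      rfl
    rw [h2, map_mul, map_pow, ← hte, ← pow_mul, mul_assoc, ← pow_add, add_comm]
  have hwd : ∀ (a b : A) (l m : ℕ), (a : G) * τ ^ l = b * τ ^ m → s a * t ^ l = s b * t ^ m := by
    intro a b l m hab
    rcases le_total l m with h | h
    · exact hwd0 a b l m h hab
    · exact (hwd0 b a m l h hab.symm).symm
  choose fa fl hf using hcov
  have hval : ∀ (a : A) (l : ℕ), s (fa (a * τ ^ l)) * t ^ fl (a * τ ^ l) = s a * t ^ l :=
    fun a l => hwd _ _ _ _ (hf _).symm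
  let ρ : G →* M :=
    { toFun := fun g => s (fa g) * t ^ fl g
      map_one' := by
        have := hval 1 0
        simpa using this
      map_mul' := by
        intro g h
        obtain ⟨b', h1, h2⟩ := hcj (fl g) (fa h)
        have h3 : g * h = ((fa g * b' : A) : G) * τ ^ (fl g + fl h) := by
          calc g * h = (fa g * τ ^ fl g) * (fa h * τ ^ fl h) := by rw [← hf g, ← hf h]
            _ = fa g * (τ ^ fl g * fa h * (τ ^ fl g)⁻¹) * (τ ^ fl g * τ ^ fl h) := by group
            _ = _ := by rw [← h1, pow_add]; rfl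
        have h4 := hwd (fa (g * h)) (fa g * b') (fl (g * h)) (fl g + fl h)
          ((hf (g * h)).symm.trans h3)
        rw [h4, map_mul, pow_add]
        calc s (fa g) * s b' * (t ^ fl g * t ^ fl h) =
            s (fa g) * (s b' * t ^ fl g) * t ^ fl h := by group
          _ = s (fa g) * (t ^ fl g * s (fa h)) * t ^ fl h := by rw [h2]
          _ = _ := by group }
  refine ⟨ρ, fun a => ?_, ?_, fun g hg => ⟨fa g, fl g, fun hd => ?_, hf g⟩⟩
  · have := hval a 0
    show s (fa a) * t ^ fl a = s a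
    simpa using this
  · have := hval 1 1
    show s (fa τ) * t ^ fl τ = t
    simpa using this
  · apply hg
    obtain ⟨c, hc⟩ := hd
    rw [hf g, hc, pow_mul, ← he]
    exact mul_mem (fa g).2 (pow_mem e.2 c)

end Pool.CND
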