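import Mathlib

/-!
# Row GAL, part 4: rational functions invariant under `x ↦ x + 1`
-/

set_option autoImplicit false

namespace Pool.CND

open Polynomial

theorem gal_inv (p : ℕ) [Fact p.Prime] (k L : Type) [Field k] [CharP k p] [Field L] [Algebra k L]
    (T : L →ₐ[k] L) (x : L) (hx : T x = x + 1) (z : L) (hz : z ∈ IntermediateField.adjoin k {x})
    (hT : T z = z) : z ∈ IntermediateField.adjoin k {x ^ p - x} := by
  have hp : p.Prime := Fact.out
  haveI hcharL : CharP L p := charP_of_injective_algebraMap (algebraMap k L).injective p
  set E := IntermediateField.adjoin k {x ^ p - x} with hE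
  have hTt : T (x ^ p - x) = x ^ p - x := by
    rw [map_sub, map_pow, hx, add_pow_char, one_pow]
    ring
  have hTE : ∀ e ∈ E, T e = e := by
    intro e he
    rw [hE] at he
    induction he using IntermediateField.adjoin_induction with
    | mem e he =>
      rw [Set.mem_singleton_iff] at he
      rw [he]
      exact hTt
    | algebraMap u => exact T.commutes u
    | add a b _ _ ha hb => rw [map_add, ha, hb]
    | inv a _ ha => rw [map_inv₀, ha]
    | mul a b _ _ ha hb => rw [map_mul, ha, hb]
  have htE : x ^ p - x ∈ E := IntermediateField.subset_adjoin k _ (Set.mem_singleton _)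
  let m : Polynomial E := X ^ p - (X + C ⟨x ^ p - x, htE⟩)
  have hmmon : m.Monic := by
    apply Polynomial.monic_X_pow_sub
    rw [degree_X_add_C]
    exact_mod_cast hp.one_lt
  have hmdeg : m.natDegree = p := by
    have h1 : m.degree = p := by
      show (X ^ p - (X + C _) : Polynomial E).degree = p
      rw [Polynomial.degree_sub_eq_left_of_degree_lt]
      · exact degree_X_pow p
      · rw [degree_X_pow, degree_X_add_C]
        exact_mod_cast hp.one_lt
    exact natDegree_eq_of_degree_eq_some h1
  have hmx : aeval x m = 0 := by
    show aeval x (X ^ p - (X + C _) : Polynomial E) = 0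
    rw [map_sub, map_add, map_pow, aeval_X, aeval_C]
    show x ^ p - (x + (x ^ p - x)) = 0
    ring
  have hxint : IsIntegral E x := ⟨m, hmmon, by rwa [aeval_def] at hmx⟩
  have hz2 : z ∈ IntermediateField.adjoin E {x} := by
    have h1 : IntermediateField.adjoin k {x} ≤
        (IntermediateField.adjoin E {x}).restrictScalars k := by
      rw [IntermediateField.adjoin_le_iff]
      intro w hw
      exact IntermediateField.subset_adjoin E _ hw
    exact h1 hz
  have hz3 : ∃ q : Polynomial E, aeval x q = z := by
    have h1 : z ∈ (IntermediateField.adjoin E {x}).toSubalgebra := hz2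
    rw [IntermediateField.adjoin_simple_toSubalgebra_of_isAlgebraic hxint.isAlgebraic,
      Algebra.adjoin_singleton_eq_range_aeval] at h1
    exact h1
  obtain ⟨q, hq⟩ := hz3
  set r := q %ₘ m with hr
  have hrx : aeval x r = z := by
    have h1 := Polynomial.modByMonic_add_div q m
    have h2 := congrArg (aeval x) h1
    rw [map_add, map_mul, hmx, zero_mul, add_zero, hq] at h2
    exact h2
  have hrdeg : r.natDegree < p := by
    rw [← hmdeg]
    apply Polynomial.natDegree_modByMonic_lt q hmmon
    intro h
    have : m.natDegree = 0 := by rw [h]; simp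
    rw [hmdeg] at this
    exact hp.ne_zero this
  have hTl : ∀ l : ℕ, aeval (x + (l : L)) r = z := by
    intro l
    induction l with
    | zero => rw [Nat.cast_zero, add_zero]; exact hrx
    | succ l ih =>
      have h1 := congrArg T ih
      rw [hT, aeval_eq_sum_range, map_sum] at h1
      rw [aeval_eq_sum_range, ← h1]
      refine Finset.sum_congr rfl fun i _ => ?_
      have h2 : T (algebraMap E L (r.coeff i)) = algebraMap E L (r.coeff i) :=
        hTE _ (r.coeff i).2
      rw [Algebra.smul_def, Algebra.smul_def, map_mul, map_pow, map_add, hx, map_natCast, h2]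
      push_cast
      ring
  have hpoly : r.map (algebraMap E L) - C z = 0 := by
    apply Polynomial.eq_zero_of_natDegree_lt_card_of_eval_eq_zero _
      (f := fun l : Fin p => x + ((l : ℕ) : L))
    · intro a b hab
      have h1 : ((a : ℕ) : L) = ((b : ℕ) : L) := add_left_cancel hab
      have h2 := (CharP.natCast_eq_natCast L p).mp h1
      have h3 : (a : ℕ) = b := by
        rw [Nat.ModEq, Nat.mod_eq_of_lt a.2, Nat.mod_eq_of_lt b.2] at h2
        exact h2
      exact Fin.ext h3
    · intro l
      rw [eval_sub, eval_C, eval_map_algebraMap, hTl, sub_self]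
    · rw [Fintype.card_fin]
      rw [natDegree_sub_C]
      exact lt_of_le_of_lt natDegree_map_le hrdeg
  have h0 := congrArg (fun f : Polynomial L => f.coeff 0) hpoly
  simp only [coeff_sub, coeff_map, coeff_C_zero, coeff_zero] at h0
  have h1 : z = ((r.coeff 0 : E) : L) := (sub_eq_zero.mp h0).symm
  rw [h1]
  exact (r.coeff 0).2

end Pool.CND
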