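import Pool.Agent.H37.CNP.Stmts
import Pool.Agent.H62.CNP.GalGrp
import Pool.Agent.H62.CNP.GalFld
import Pool.Agent.H62.CNP.GalInv

/-!
# Row GAL: the covers of the groups with an abelian subgroup of index `p`
-/

set_option autoImplicit false

namespace Pool.CND

open Polynomial Finset

/-- `k`-algebra maps from `k(x)(y)` are determined by `x` and `y` -/
theorem gal_ext {k L : Type} [Field k] [Field L] [Algebra k L] [Algebra (RatFunc k) L]
    [IsScalarTower k (RatFunc k) L] {n : ℕ} {y : Fin n → L}
    (hgen : ∀ M : Subfield L, (∀ u : RatFunc k, algebraMap (RatFunc k) L u ∈ M) →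
      (∀ i, y i ∈ M) → ∀ z : L, z ∈ M)
    (f g : L →ₐ[k] L)
    (h1 : f (algebraMap (RatFunc k) L RatFunc.X) = g (algebraMap (RatFunc k) L RatFunc.X))
    (h2 : ∀ i, f (y i) = g (y i)) : f = g := by
  have hrat : ∀ u : RatFunc k, f (algebraMap (RatFunc k) L u) = g (algebraMap (RatFunc k) L u) := by
    intro u
    have hpol : ∀ q : Polynomial k, f (algebraMap (RatFunc k) L (algebraMap (Polynomial k) _ q)) =
        g (algebraMap (RatFunc k) L (algebraMap (Polynomial k) _ q)) := by
      intro q
      rw [← RatFunc.aeval_X_left_eq_algebraMap, ← Polynomial.aeval_algebraMap_apply,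
        ← Polynomial.aeval_algHom_apply, ← Polynomial.aeval_algHom_apply, h1]
    rw [← RatFunc.num_div_denom u, map_div₀, map_div₀, map_div₀, hpol, hpol]
  let M : Subfield L :=
    { carrier := {z | f z = g z}
      mul_mem' := fun {a b} ha hb => by
        show f (a * b) = g (a * b)
        rw [map_mul, map_mul, ha, hb]
      one_mem' := by show f 1 = g 1; rw [map_one, map_one]
      add_mem' := fun {a b} ha hb => by
        show f (a + b) = g (a + b)
        rw [map_add, map_add, ha, hb]
      zero_mem' := by show f 0 = g 0; rw [map_zero, map_zero]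
      neg_mem' := fun {a} ha => by
        show f (-a) = g (-a)
        rw [map_neg, map_neg, ha]
      inv_mem' := fun a ha => by
        show f a⁻¹ = g a⁻¹
        rw [map_inv₀, map_inv₀, ha] }
  ext z
  exact hgen M hrat h2 z

theorem gal_rat_mem {k L : Type} [Field k] [Field L] [Algebra k L] [Algebra (RatFunc k) L]
    [IsScalarTower k (RatFunc k) L] (u : RatFunc k) :
    algebraMap (RatFunc k) L u ∈
      IntermediateField.adjoin k {algebraMap (RatFunc k) L RatFunc.X} := by
  have hpol : ∀ q : Polynomial k, algebraMap (RatFunc k) L (algebraMap (Polynomial k) _ q) ∈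
      IntermediateField.adjoin k {algebraMap (RatFunc k) L RatFunc.X} := by
    intro q
    rw [← RatFunc.aeval_X_left_eq_algebraMap, ← Polynomial.aeval_algebraMap_apply]
    exact IntermediateField.algebra_adjoin_le_adjoin k _
      (Polynomial.aeval_mem_adjoin_singleton k _)
  rw [← RatFunc.num_div_denom u, map_div₀]
  exact div_mem (hpol _) (hpol _)

/-- iterates of `T` -/
theorem gal_iter {p : ℕ} [Fact p.Prime] {k L : Type} [Field k] [CharP k p] [Field L] [Algebra k L]
    {n : ℕ} (S : Matrix (Fin n) (Fin n) (ZMod p)) (C : Fin n → Polynomial k) (T : L →ₐ[k] L) (x : L)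
    (y : Fin n → L) (hx : T x = x + 1)
    (hy : ∀ i, T (y i) = (∑ j, algebraMap k L (fp k (S i j)) * y j) + aeval x (C i)) (l : ℕ) :
    (T ^ l) x = x + (l : L) ∧ ∀ i, (T ^ l) (y i) =
      (∑ j, algebraMap k L (fp k ((S ^ l) i j)) * y j) +
        ∑ r ∈ range l, ∑ j, algebraMap k L (fp k ((S ^ (l - 1 - r)) i j)) * aeval (x + (r : L)) (C j) := by
  induction l with
  | zero =>
    refine ⟨by simp, fun i => ?_⟩
    have : ∀ j, algebraMap k L (fp k ((1 : Matrix (Fin n) (Fin n) (ZMod p)) i j)) * y j =
        if i = j then y j else 0 := by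
      intro j
      rw [Matrix.one_apply]
      split_ifs with h
      · simp [fp]
      · simp [fp]
    rw [pow_zero, pow_zero, Finset.sum_congr rfl fun j _ => this j]
    simp
  | succ l ih =>
    obtain ⟨h1, h2⟩ := ih
    have hxl : T (x + (l : L)) = x + ((l + 1 : ℕ) : L) := by
      rw [map_add, hx, map_natCast]
      push_cast
      ring
    refine ⟨?_, fun i => ?_⟩
    · rw [pow_succ']
      show T ((T ^ l) x) = _
      rw [h1, hxl]
    · rw [pow_succ']
      show T ((T ^ l) (y i)) = _
      rw [h2 i, map_add, map_sum, map_sum]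
      have e1 : ∀ j, T (algebraMap k L (fp k ((S ^ l) i j)) * y j) =
          (∑ r, algebraMap k L (fp k ((S ^ l) i j * S j r)) * y r) +
            algebraMap k L (fp k ((S ^ l) i j)) * aeval x (C j) := by
        intro j
        rw [map_mul, T.commutes, hy j, mul_add, Finset.mul_sum]
        congr 1
        refine Finset.sum_congr rfl fun r _ => ?_
        have : fp k ((S ^ l) i j * S j r) = fp k ((S ^ l) i j) * fp k (S j r) := map_mul _ _ _
        rw [this, map_mul]
        ring
      have e2 : ∑ j, T (algebraMap k L (fp k ((S ^ l) i j)) * y j) =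
          (∑ r, algebraMap k L (fp k ((S ^ (l + 1)) i r)) * y r) +
            ∑ j, algebraMap k L (fp k ((S ^ l) i j)) * aeval x (C j) := by
        rw [Finset.sum_congr rfl fun j _ => e1 j, Finset.sum_add_distrib, Finset.sum_comm]
        congr 1
        refine Finset.sum_congr rfl fun r _ => ?_
        rw [← Finset.sum_mul, ← map_sum]
        congr 2
        have : fp k ((S ^ (l + 1)) i r) = fp k (∑ j, (S ^ l) i j * S j r) := by
          rw [pow_succ, Matrix.mul_apply]
        rw [this]
        exact (map_sum (ZMod.castHom (dvd_refl p) k) _ _).symm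
      have e3 : ∑ r ∈ range l, T (∑ j, algebraMap k L (fp k ((S ^ (l - 1 - r)) i j)) *
          aeval (x + (r : L)) (C j)) = ∑ r ∈ range l, ∑ j, algebraMap k L
            (fp k ((S ^ (l + 1 - 1 - (r + 1))) i j)) * aeval (x + ((r + 1 : ℕ) : L)) (C j) := by
        refine Finset.sum_congr rfl fun r _ => ?_
        rw [map_sum]
        refine Finset.sum_congr rfl fun j _ => ?_
        rw [map_mul, T.commutes, ← Polynomial.aeval_algHom_apply, map_add, hx, map_natCast]
        have e4 : l + 1 - 1 - (r + 1) = l - 1 - r := by omega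
        rw [e4]
        congr 3
        push_cast
        ring
      rw [e2, e3, Finset.sum_range_succ' (fun r => ∑ j, algebraMap k L
            (fp k ((S ^ (l + 1 - 1 - r)) i j)) * aeval (x + ((r : ℕ) : L)) (C j)) l]
      rw [Nat.cast_zero, add_zero, add_assoc]
      congr 1
      rw [add_comm]
      rfl

theorem gal_thm : S_GAL := by
  intro p k G _ _ _ _ A τ n φ S ε F C hp hcard hτ hconj hpow hS hSε hF hC hne
  haveI : Fact p.Prime := ⟨hp⟩
  haveI hcharK : CharP (RatFunc k) p :=
    charP_of_injective_algebraMap (algebraMap k (RatFunc k)).injective p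
  -- the automorphism of `k(x)`
  let θ : RatFunc k ≃+* RatFunc k :=
    IsFractionRing.ringEquivOfRingEquiv (A := Polynomial k) (B := Polynomial k)
      (Polynomial.algEquivAevalXAddC (1 : k)).toRingEquiv
  have hθ : ∀ q : Polynomial k, θ (algebraMap (Polynomial k) (RatFunc k) q) =
      algebraMap (Polynomial k) (RatFunc k) (q.comp (X + 1)) := by
    intro q
    have h1 := IsFractionRing.ringEquivOfRingEquiv_algebraMap (K := RatFunc k) (L := RatFunc k)
      (Polynomial.algEquivAevalXAddC (1 : k)).toRingEquiv q
    refine h1.trans ?_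
    congr 1
  have hcast : ∀ c : ZMod p, ZMod.castHom (dvd_refl p) (RatFunc k) c =
      algebraMap (Polynomial k) (RatFunc k) (Polynomial.C (fp k c)) := by
    intro c
    rw [gal_cast (K := k)]
    rfl
  obtain ⟨L, iL, iA, y, hfd, hsep, hy, hgen, hsig, hfix, T, hTu, hTy⟩ := gal_field p (RatFunc k) n θ
    (fun i => algebraMap (Polynomial k) (RatFunc k) (F i))
    (fun i => algebraMap (Polynomial k) (RatFunc k) (C i)) S hS
    (fun i => by
      rw [hθ, hF i, map_add, map_sum, map_sub, map_pow]
      congr 1
      refine Finset.sum_congr rfl fun j _ => ?_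
      rw [map_mul, hcast])
    (fun ℓ hℓ u hu => by
      apply hne ℓ hℓ u
      rw [hu, map_sum]
      refine Finset.sum_congr rfl fun j _ => ?_
      rw [map_mul, hcast])
  letI iAk : Algebra k L := ((algebraMap (RatFunc k) L).comp (algebraMap k (RatFunc k))).toAlgebra
  haveI iST : IsScalarTower k (RatFunc k) L := IsScalarTower.of_algebraMap_eq (fun _ => rfl)
  haveI hcharL : CharP L p := charP_of_injective_algebraMap (algebraMap k L).injective p
  have hcastL : ∀ c : ZMod p, algebraMap (RatFunc k) L (ZMod.castHom (dvd_refl p) (RatFunc k) c) =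
      algebraMap k L (fp k c) := by
    intro c
    rw [gal_cast (K := k)]
    rfl
  set x : L := algebraMap (RatFunc k) L RatFunc.X with hxdef
  have hpoly : ∀ q : Polynomial k, algebraMap (RatFunc k) L (algebraMap (Polynomial k) _ q) =
      aeval x q := by
    intro q
    rw [← RatFunc.aeval_X_left_eq_algebraMap, ← Polynomial.aeval_algebraMap_apply]
  have hTx0 : T x = x + 1 := by
    have h1 := hθ (X : Polynomial k)
    rw [X_comp, RatFunc.algebraMap_X] at h1
    rw [hxdef, hTu, h1, hpoly, map_add, aeval_X, map_one]
  -- `T` over `k`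
  let Tk : L →ₐ[k] L :=
    { T with
      commutes' := by
        intro c
        show T (algebraMap k L c) = algebraMap k L c
        have h1 := hθ (Polynomial.C c)
        rw [C_comp] at h1
        have h2 : algebraMap k L c =
            algebraMap (RatFunc k) L (algebraMap (Polynomial k) (RatFunc k) (Polynomial.C c)) := by
          rw [hpoly, aeval_C]
        rw [h2, hTu, h1] }
  have hTx : Tk x = x + 1 := hTx0
  have hTky : ∀ i, Tk (y i) = (∑ j, algebraMap k L (fp k (S i j)) * y j) + aeval x (C i) := by
    intro i
    show T (y i) = _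
    rw [hTy i, hpoly]
    congr 1
    refine Finset.sum_congr rfl fun j _ => ?_
    rw [hcastL]
  -- the translations
  choose sg hsg using hsig
  have hsgx : ∀ v, sg v x = x := fun v => (sg v).commutes _
  have hsgy : ∀ v i, sg v (y i) = y i + algebraMap k L (fp k (v i)) := by
    intro v i
    rw [hsg v i, hcastL]
  let sk : (Fin n → ZMod p) → (L ≃ₐ[k] L) := fun v => (sg v).restrictScalars k
  have hskx : ∀ v, sk v x = x := hsgx
  have hsky : ∀ v i, sk v (y i) = y i + algebraMap k L (fp k (v i)) := hsgy
  have hext : ∀ f g : L ≃ₐ[k] L, f x = g x → (∀ i, f (y i) = g (y i)) → f = g := by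
    intro f g h1 h2
    have h3 := gal_ext hgen f.toAlgHom g.toAlgHom h1 h2
    ext z
    exact congrArg (fun h : L →ₐ[k] L => h z) h3
  have hfpadd : ∀ a b : ZMod p, fp k (a + b) = fp k a + fp k b := fun a b =>
    map_add (ZMod.castHom (dvd_refl p) k) a b
  have hfpmul : ∀ a b : ZMod p, fp k (a * b) = fp k a * fp k b := fun a b =>
    map_mul (ZMod.castHom (dvd_refl p) k) a b
  have hfp0 : fp k (0 : ZMod p) = 0 := map_zero (ZMod.castHom (dvd_refl p) k)
  let s : A →* (L ≃ₐ[k] L) :=
    { toFun := fun a => sk (Multiplicative.toAdd (φ a))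
      map_one' := by
        apply hext
        · rw [hskx]; rfl
        · intro i
          rw [hsky, map_one]
          show y i + algebraMap k L (fp k (0 : ZMod p)) = y i
          rw [hfp0, map_zero, add_zero]
      map_mul' := by
        intro a b
        apply hext
        · rw [hskx, AlgEquiv.mul_apply, hskx, hskx]
        · intro i
          rw [hsky, AlgEquiv.mul_apply, hsky, map_add, hsky, AlgEquiv.commutes, map_mul]
          have : Multiplicative.toAdd (φ a * φ b) i = Multiplicative.toAdd (φ a) i +
              Multiplicative.toAdd (φ b) i := rfl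
          rw [this, hfpadd, map_add]
          ring }
  have hsx : ∀ a, s a x = x := fun a => hskx _
  have hsy : ∀ a i, s a (y i) = y i + algebraMap k L (fp k (Multiplicative.toAdd (φ a) i)) :=
    fun a i => hsky _ i
  obtain ⟨e, he, heε⟩ := hpow
  -- `T ^ p` is a translation
  have hTp : Tk ^ p = (s e).toAlgHom := by
    obtain ⟨h1, h2⟩ := gal_iter S C Tk x y hTx hTky p
    apply gal_ext hgen
    · show (Tk ^ p) x = s e x
      rw [h1, CharP.cast_eq_zero, add_zero, hsx]
    · intro i
      show (Tk ^ p) (y i) = s e (y i)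
      rw [h2 i, hsy, heε, hS]
      have h3 : ∀ j, algebraMap k L (fp k ((1 : Matrix (Fin n) (Fin n) (ZMod p)) i j)) * y j =
          if i = j then y j else 0 := by
        intro j
        rw [Matrix.one_apply]
        split_ifs with h
        · simp [fp]
        · simp [fp]
      rw [Finset.sum_congr rfl fun j _ => h3 j]
      simp only [Finset.sum_ite_eq, Finset.mem_univ, if_true]
      congr 1
      have h4 := congrArg (aeval x) (hC i)
      rw [map_sum, aeval_C] at h4
      rw [← h4]
      refine Finset.sum_congr rfl fun l _ => ?_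
      rw [map_sum]
      refine Finset.sum_congr rfl fun j _ => ?_
      rw [map_mul, aeval_C, aeval_comp, map_add, aeval_X, map_natCast]
  have hTbij : Function.Bijective Tk := by
    refine ⟨Tk.toRingHom.injective, fun z => ?_⟩
    obtain ⟨w, hw⟩ := (s e).surjective z
    refine ⟨(Tk ^ (p - 1)) w, ?_⟩
    have h1 : Tk ((Tk ^ (p - 1)) w) = (Tk ^ p) w := by
      have : Tk ^ p = Tk * Tk ^ (p - 1) := by
        rw [← pow_succ', Nat.sub_add_cancel hp.one_lt.le]
      rw [this]
      rfl
    rw [h1, hTp]
    exact hw
  let t : L ≃ₐ[k] L := AlgEquiv.ofBijective Tk hTbij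
  have htapp : ∀ z, t z = Tk z := fun z => rfl
  have htpow : ∀ (l : ℕ) (z : L), (t ^ l) z = (Tk ^ l) z := by
    intro l
    induction l with
    | zero => intro z; rfl
    | succ l ih =>
      intro z
      rw [pow_succ', pow_succ', AlgEquiv.mul_apply, ih z]
      rfl
  have htp : t ^ p = s e := by
    ext z
    rw [htpow, hTp]
    rfl
  have hts : ∀ a a' : A, (a' : G) = τ * a * τ⁻¹ → t * s a = s a' * t := by
    intro a a' haa
    obtain ⟨a1, h1, h2⟩ := hconj a
    have h3 : a1 = a' := Subtype.ext (h1.trans haa.symm)
    subst h3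
    apply hext
    · rw [AlgEquiv.mul_apply, AlgEquiv.mul_apply, hsx, htapp, hTx, map_add, hsx, map_one]
    · intro i
      rw [AlgEquiv.mul_apply, AlgEquiv.mul_apply, hsy, map_add, AlgEquiv.commutes, htapp, hTky,
        map_add, map_sum, ← Polynomial.aeval_algHom_apply]
      have h4 : (s a1).toAlgHom x = x := hsx a1
      have h5 : ∀ j, s a1 (algebraMap k L (fp k (S i j)) * y j) =
          algebraMap k L (fp k (S i j)) * y j +
            algebraMap k L (fp k (S i j * Multiplicative.toAdd (φ a1) j)) := by
        intro j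
        rw [map_mul, AlgEquiv.commutes, hsy, hfpmul, map_mul]
        ring
      have h6 : ∑ j, algebraMap k L (fp k (S i j * Multiplicative.toAdd (φ a1) j)) =
          algebraMap k L (fp k (Multiplicative.toAdd (φ a) i)) := by
        rw [← map_sum]
        congr 1
        have h7 : ∑ j, fp k (S i j * Multiplicative.toAdd (φ a1) j) =
            fp k (∑ j, S i j * Multiplicative.toAdd (φ a1) j) :=
          (map_sum (ZMod.castHom (dvd_refl p) k) _ _).symm
        rw [h7]
        congr 1
        exact congrFun h2 i
      have h8 : aeval ((s a1) x) (C i) = aeval x (C i) := by rw [hsx]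
      rw [Finset.sum_congr rfl fun j _ => h5 j, Finset.sum_add_distrib, h6]
      have h9 : (aeval (s a1 x)) (C i) = aeval x (C i) := h8
      rw [h9]
      ring
  have hconjA : ∀ a ∈ A, τ * a * τ⁻¹ ∈ A := by
    intro a ha
    obtain ⟨a1, h1, _⟩ := hconj ⟨a, ha⟩
    rw [← h1]
    exact a1.2
  obtain ⟨ρ, hρA, hρτ, hρg⟩ := gal_grp p A τ hp hcard hτ hconjA s t hts e he htp
  have hTfix : ∀ (l : ℕ), (t ^ l) x = x + (l : L) := by
    intro l
    rw [htpow]
    exact (gal_iter S C Tk x y hTx hTky l).1
  have hfixA : ∀ z : L, (∀ a ∈ A, ρ a z = z) → z ∈ IntermediateField.adjoin k {x} := by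
    intro z hz
    obtain ⟨u, hu⟩ := hfix z (by
      intro σ
      have h1 : ∀ i, ∃ c : ZMod p, σ (y i) = y i + ZMod.castHom (dvd_refl p) L c := by
        intro i
        apply gal_root
        rw [← map_pow, ← map_sub, hy i]
        exact σ.commutes _
      choose w hw using h1
      let a : A := φ.symm (Multiplicative.ofAdd w)
      have h2 : σ.restrictScalars k = s a := by
        apply hext
        · rw [hsx]
          exact σ.commutes _
        · intro i
          rw [hsy]
          have h3 : Multiplicative.toAdd (φ a) = w := by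
            show Multiplicative.toAdd (φ (φ.symm (Multiplicative.ofAdd w))) = w
            rw [MulEquiv.apply_symm_apply]
            rfl
          rw [h3]
          show σ (y i) = _
          rw [hw i, gal_cast (K := k)]
          rfl
      have h4 : s a z = z := by
        rw [← hρA a]
        exact hz a a.2
      rw [← h2] at h4
      exact h4)
    rw [← hu]
    exact gal_rat_mem u
  refine ⟨L, iL, iAk, x, y, ρ, ?_, ?_, ?_, ?_, hfixA, ?_, ?_, ?_⟩
  · rw [hxdef]
    exact (transcendental_algebraMap_iff (algebraMap (RatFunc k) L).injective).mpr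
      RatFunc.transcendental_X
  · intro i
    rw [hy i, hpoly]
  · intro a
    rw [hρA a]
    exact ⟨hsx a, hsy a⟩
  · intro g hg
    obtain ⟨a, l, hl, rfl⟩ := hρg g hg
    refine ⟨(l : k), ?_, ?_, ?_⟩
    · intro h
      exact hl ((CharP.cast_eq_zero_iff k p l).mp h)
    · have h1 : (l : k) = ZMod.castHom (dvd_refl p) k (l : ZMod p) := by rw [map_natCast]
      rw [h1, gal_pf_pow]
    · rw [map_mul, map_pow, hρτ, hρA, AlgEquiv.mul_apply, hTfix, map_add, hsx, map_natCast,
        map_natCast]
  · intro z hz
    apply gal_inv p k L Tk x hTx z (hfixA z fun a ha => hz a)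
    have h1 := hz τ
    rw [hρτ] at h1
    exact h1
  · let j : RatFunc k →+* IntermediateField.adjoin k {x} :=
      RingHom.codRestrict (algebraMap (RatFunc k) L) (IntermediateField.adjoin k {x}) gal_rat_mem
    letI : Algebra (RatFunc k) (IntermediateField.adjoin k {x}) := j.toAlgebra
    haveI : IsScalarTower (RatFunc k) (IntermediateField.adjoin k {x}) L :=
      IsScalarTower.of_algebraMap_eq (fun _ => rfl)
    exact Module.Finite.of_restrictScalars_finite (RatFunc k) (IntermediateField.adjoin k {x}) L
  · let j : RatFunc k →+* IntermediateField.adjoin k {x} :=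
      RingHom.codRestrict (algebraMap (RatFunc k) L) (IntermediateField.adjoin k {x}) gal_rat_mem
    letI : Algebra (RatFunc k) (IntermediateField.adjoin k {x}) := j.toAlgebra
    haveI : IsScalarTower (RatFunc k) (IntermediateField.adjoin k {x}) L :=
      IsScalarTower.of_algebraMap_eq (fun _ => rfl)
    exact Algebra.isSeparable_tower_top_of_isSeparable (RatFunc k)
      (IntermediateField.adjoin k {x}) L

end Pool.CND
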