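import Mathlib

/-!
# Row GAL, part 2: elementary abelian Artin-Schreier extensions
-/

set_option autoImplicit false

namespace Pool.CND

open Polynomial

/-- an element of the prime field -/
theorem gal_pf {p : ℕ} [Fact p.Prime] {Ω : Type} [Field Ω] [CharP Ω p] {w : Ω} (h : w ^ p = w) :
    ∃ c : ZMod p, ZMod.castHom (dvd_refl p) Ω c = w := by
  have h1 : w ∈ (⊥ : Subfield Ω) := (Subfield.mem_bot_iff_pow_eq_self (F := Ω) (p := p)).mpr h
  rw [← ZMod.fieldRange_castHom_eq_bot p] at h1
  exact h1

theorem gal_pf_pow {p : ℕ} [Fact p.Prime] {Ω : Type} [Field Ω] [CharP Ω p] (c : ZMod p) :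
    (ZMod.castHom (dvd_refl p) Ω c) ^ p = ZMod.castHom (dvd_refl p) Ω c := by
  rw [← map_pow, ZMod.pow_card]

theorem gal_root {p : ℕ} [Fact p.Prime] {Ω : Type} [Field Ω] [CharP Ω p] {y z : Ω}
    (h : y ^ p - y = z ^ p - z) : ∃ c : ZMod p, y = z + ZMod.castHom (dvd_refl p) Ω c := by
  have h1 : (y - z) ^ p = y - z := by
    rw [sub_pow_char]
    linear_combination h
  obtain ⟨c, hc⟩ := gal_pf h1
  exact ⟨c, by rw [hc]; ring⟩

theorem gal_sep {p : ℕ} [Fact p.Prime] {K : Type} [Field K] [CharP K p] (a : K) :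
    (X ^ p - X - C a : K[X]).Separable := by
  rw [Polynomial.separable_def]
  have h : derivative (X ^ p - X - C a : K[X]) = -1 := by
    simp [derivative_sub, derivative_X_pow]
  rw [h]
  exact ⟨0, -1, by ring⟩

theorem gal_exists {p : ℕ} [Fact p.Prime] {Ω : Type} [Field Ω] [IsAlgClosed Ω] (a : Ω) :
    ∃ y : Ω, y ^ p - y = a := by
  have hp : p.Prime := Fact.out
  have hdeg : (X ^ p - (X + C a) : Polynomial Ω).degree = p := by
    rw [Polynomial.degree_sub_eq_left_of_degree_lt]
    · exact degree_X_pow p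
    · rw [degree_X_pow, degree_X_add_C]
      exact_mod_cast hp.one_lt
  obtain ⟨y, hy⟩ := IsAlgClosed.exists_root (X ^ p - (X + C a) : Polynomial Ω) (by
    rw [hdeg]
    exact_mod_cast hp.ne_zero)
  refine ⟨y, ?_⟩
  simp only [IsRoot.def, eval_sub, eval_pow, eval_X, eval_add, eval_C] at hy
  linear_combination hy

/-- the Galois group of `K(Y)`, `Y_i ^ p - Y_i = f_i`, if no combination of the `f_i` with coefficients in
`F_p` is of the form `u ^ p - u` -/
theorem gal_as (p : ℕ) [Fact p.Prime] (K Ω : Type) [Field K] [CharP K p] [Field Ω] [Algebra K Ω]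
    [IsAlgClosure K Ω] [CharP Ω p] (n : ℕ) (f : Fin n → K) (Y : Fin n → Ω)
    (hY : ∀ i, Y i ^ p - Y i = algebraMap K Ω (f i))
    (hne : ∀ ℓ : Fin n → ZMod p, ℓ ≠ 0 → ∀ u : K,
      u ^ p - u ≠ ∑ i, ZMod.castHom (dvd_refl p) K (ℓ i) * f i) :
    FiniteDimensional K (IntermediateField.adjoin K (Set.range Y)) ∧
    Algebra.IsSeparable K (IntermediateField.adjoin K (Set.range Y)) ∧
    (∀ v : Fin n → ZMod p, ∃ σ : (IntermediateField.adjoin K (Set.range Y)) ≃ₐ[K]
      (IntermediateField.adjoin K (Set.range Y)), ∀ i,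
        ((σ ⟨Y i, IntermediateField.subset_adjoin K _ ⟨i, rfl⟩⟩ :
          IntermediateField.adjoin K (Set.range Y)) : Ω) =
          Y i + ZMod.castHom (dvd_refl p) Ω (v i)) ∧
    (∀ z : IntermediateField.adjoin K (Set.range Y),
      (∀ σ : (IntermediateField.adjoin K (Set.range Y)) ≃ₐ[K]
        (IntermediateField.adjoin K (Set.range Y)), σ z = z) →
      ∃ u : K, algebraMap K (IntermediateField.adjoin K (Set.range Y)) u = z) := by
  have hp : p.Prime := Fact.out
  set L := IntermediateField.adjoin K (Set.range Y) with hL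
  have hann : ∀ i, aeval (Y i) (X ^ p - X - C (f i) : K[X]) = 0 := by
    intro i
    simp only [map_sub, map_pow, aeval_X, aeval_C]
    rw [hY i]
    ring
  have hmon : ∀ i, (X ^ p - X - C (f i) : K[X]).Monic := by
    intro i
    rw [sub_sub]
    apply Polynomial.monic_X_pow_sub
    rw [degree_X_add_C]
    exact_mod_cast hp.one_lt
  have hint : ∀ i, IsIntegral K (Y i) := fun i => ⟨_, hmon i, by
    have := hann i
    rwa [aeval_def] at this⟩
  haveI hfd : FiniteDimensional K L := by
    rw [hL]
    apply IntermediateField.finiteDimensional_adjoin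
    rintro _ ⟨i, rfl⟩
    exact hint i
  haveI hsep : Algebra.IsSeparable K L := by
    rw [hL, IntermediateField.isSeparable_adjoin_iff_isSeparable]
    rintro _ ⟨i, rfl⟩
    exact (gal_sep (f i)).of_dvd (minpoly.dvd K (Y i) (hann i))
  haveI hnorm : Normal K L := by
    haveI : IsAlgClosed Ω := IsAlgClosure.isAlgClosed K
    haveI : Algebra.IsAlgebraic K Ω := IsAlgClosure.isAlgebraic
    haveI : Normal K Ω := by infer_instance
    rw [IntermediateField.normal_iff_forall_map_le']
    intro σ
    rw [hL, IntermediateField.adjoin_map, IntermediateField.adjoin_le_iff]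
    rintro _ ⟨_, ⟨i, rfl⟩, rfl⟩
    have h1 : (σ (Y i)) ^ p - σ (Y i) = Y i ^ p - Y i := by
      rw [← map_pow, ← map_sub, hY i]
      exact σ.commutes _
    obtain ⟨c, hc⟩ := gal_root h1
    have h2 : ZMod.castHom (dvd_refl p) Ω c = algebraMap K Ω (ZMod.castHom (dvd_refl p) K c) := by
      have : (ZMod.castHom (dvd_refl p) Ω) =
          (algebraMap K Ω).comp (ZMod.castHom (dvd_refl p) K) := Subsingleton.elim _ _
      rw [this]
      rfl
    show σ (Y i) ∈ _
    rw [hc, h2]
    exact add_mem (IntermediateField.subset_adjoin K _ ⟨i, rfl⟩)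
      (IntermediateField.algebraMap_mem _ _)
  haveI hgal : IsGalois K L := ⟨⟩
  have hfix : ∀ z : L, (∀ σ : L ≃ₐ[K] L, σ z = z) → ∃ u : K, algebraMap K L u = z := by
    intro z hz
    exact (IsGalois.mem_range_algebraMap_iff_fixed z).mpr hz
  refine ⟨hfd, hsep, ?_, hfix⟩
  have hcast : ∀ c : ZMod p, ZMod.castHom (dvd_refl p) Ω c =
      algebraMap K Ω (ZMod.castHom (dvd_refl p) K c) := by
    intro c
    have : (ZMod.castHom (dvd_refl p) Ω) =
        (algebraMap K Ω).comp (ZMod.castHom (dvd_refl p) K) := Subsingleton.elim _ _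
    rw [this]
    rfl
  let y : Fin n → L := fun i => ⟨Y i, IntermediateField.subset_adjoin K _ ⟨i, rfl⟩⟩
  have hy : ∀ i, y i ^ p - y i = algebraMap K L (f i) := fun i => Subtype.ext (hY i)
  have hcharL : CharP L p := charP_of_injective_algebraMap (algebraMap K L).injective p
  have hcastL : ∀ c : ZMod p, ZMod.castHom (dvd_refl p) L c =
      algebraMap K L (ZMod.castHom (dvd_refl p) K c) := by
    intro c
    have : (ZMod.castHom (dvd_refl p) L) =
        (algebraMap K L).comp (ZMod.castHom (dvd_refl p) K) := Subsingleton.elim _ _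
    rw [this]
    rfl
  -- the subspace of translations
  let V : AddSubgroup (Fin n → ZMod p) :=
    { carrier := {v | ∃ σ : L ≃ₐ[K] L, ∀ i, σ (y i) = y i +
        algebraMap K L (ZMod.castHom (dvd_refl p) K (v i))}
      zero_mem' := ⟨AlgEquiv.refl, fun i => by simp⟩
      add_mem' := by
        rintro v w ⟨σ, hσ⟩ ⟨σ', hσ'⟩
        refine ⟨σ * σ', fun i => ?_⟩
        rw [AlgEquiv.mul_apply, hσ' i, map_add, hσ i, AlgEquiv.commutes, Pi.add_apply, map_add,
          map_add]
        ring
      neg_mem' := by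
        rintro v ⟨σ, hσ⟩
        refine ⟨σ⁻¹, fun i => ?_⟩
        have h1 : σ⁻¹ (σ (y i)) = y i := by
          rw [← AlgEquiv.mul_apply, inv_mul_cancel, AlgEquiv.one_apply]
        rw [hσ i, map_add, AlgEquiv.commutes] at h1
        rw [Pi.neg_apply, map_neg, map_neg]
        linear_combination h1 }
  have hVtop : V = ⊤ := by
    by_contra hne'
    let W : Submodule (ZMod p) (Fin n → ZMod p) := AddSubgroup.toZModSubmodule p V
    have hW : W < ⊤ := by
      rw [lt_top_iff_ne_top]
      intro h
      apply hne'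
      rw [eq_top_iff]
      intro v _
      have : v ∈ W := by rw [h]; trivial
      exact this
    obtain ⟨g, hg0, hgW⟩ := Submodule.exists_le_ker_of_lt_top W hW
    let ℓ : Fin n → ZMod p := fun i => g (Pi.single i 1)
    have hgv : ∀ v : Fin n → ZMod p, g v = ∑ i, ℓ i * v i := by
      intro v
      conv_lhs => rw [← Finset.univ_sum_single v]
      rw [map_sum]
      refine Finset.sum_congr rfl fun i _ => ?_
      have : (Pi.single i (v i) : Fin n → ZMod p) = v i • Pi.single i 1 := by
        ext j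
        simp [Pi.single_apply]
      rw [this, map_smul, smul_eq_mul, mul_comm]
    have hℓ : ℓ ≠ 0 := by
      intro h
      apply hg0
      ext i
      have : ℓ i = 0 := congrFun h i
      simpa [ℓ] using this
    have hfixed : ∀ σ : L ≃ₐ[K] L,
        σ (∑ i, algebraMap K L (ZMod.castHom (dvd_refl p) K (ℓ i)) * y i) =
        ∑ i, algebraMap K L (ZMod.castHom (dvd_refl p) K (ℓ i)) * y i := by
      intro σ
      have h1 : ∀ i, ∃ c : ZMod p, σ (y i) = y i + ZMod.castHom (dvd_refl p) L c := by
        intro i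
        apply gal_root
        rw [← map_pow, ← map_sub, hy i]
        exact σ.commutes _
      choose v hv using h1
      have hvV : v ∈ W := by
        show v ∈ V
        exact ⟨σ, fun i => by rw [hv i, hcastL]⟩
      have h2 : g v = 0 := hgW hvV
      rw [hgv] at h2
      rw [map_sum]
      have h3 : ∀ i, σ (algebraMap K L (ZMod.castHom (dvd_refl p) K (ℓ i)) * y i) =
          algebraMap K L (ZMod.castHom (dvd_refl p) K (ℓ i)) * y i +
          algebraMap K L (ZMod.castHom (dvd_refl p) K (ℓ i * v i)) := by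
        intro i
        rw [map_mul, AlgEquiv.commutes, hv i, hcastL, map_mul, map_mul]
        ring
      rw [Finset.sum_congr rfl fun i _ => h3 i, Finset.sum_add_distrib, ← map_sum, ← map_sum, h2,
        map_zero, map_zero, add_zero]
    obtain ⟨u, hu⟩ := hfix _ hfixed
    apply hne ℓ hℓ u
    apply (algebraMap K L).injective
    rw [map_sub, map_pow, hu, sum_pow_char, map_sum, ← Finset.sum_sub_distrib]
    refine Finset.sum_congr rfl fun i _ => ?_
    rw [mul_pow, ← map_pow, gal_pf_pow, map_mul, ← hy i]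
    ring
  intro v
  have hv : v ∈ V := by rw [hVtop]; trivial
  obtain ⟨σ, hσ⟩ := hv
  refine ⟨σ, fun i => ?_⟩
  have h1 : ((σ (y i) : L) : Ω) = ((y i + algebraMap K L (ZMod.castHom (dvd_refl p) K (v i)) : L) : Ω) :=
    congrArg (fun z : L => (z : Ω)) (hσ i)
  show ((σ (y i) : L) : Ω) = _
  rw [h1, hcast]
  rfl

end Pool.CND
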